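import Mathlib

/-! A verified frontier sweep over 3-colourings of the edges of a list of triangles. -/

set_option autoImplicit false

namespace Pool.Agent.MP_06b47d_co.W4

/-- base three code of the first `W` values -/
def cd : ℕ → (ℕ → ℕ) → ℕ
  | 0, _ => 0
  | W + 1, σ => σ 0 + 3 * cd W fun j => σ (j + 1)

lemma cd_dig (W : ℕ) : ∀ (σ : ℕ → ℕ) (k : ℕ), (∀ j, σ j < 3) → k < W →
    cd W σ / 3 ^ k % 3 = σ k := by
  induction W with
  | zero => intro σ k _ h; omega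
  | succ W ih =>
    intro σ k h hk
    have h0 := h 0
    rcases k with _ | k
    · simp only [cd, pow_zero, Nat.div_one]
      omega
    · rw [cd, pow_succ', ← Nat.div_div_eq_div_mul,
        show (σ 0 + 3 * cd W fun j => σ (j + 1)) / 3 = cd W fun j => σ (j + 1) by omega]
      exact ih _ k (fun j => h _) (by omega)

lemma cd_upd (W : ℕ) : ∀ (σ : ℕ → ℕ) (k v : ℕ), k < W →
    cd W (fun j => if j = k then v else σ j) + σ k * 3 ^ k = cd W σ + v * 3 ^ k := by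
  induction W with
  | zero => intro σ k v h; omega
  | succ W ih =>
    intro σ k v hk
    rcases k with _ | k
    · simp only [cd, if_true, Nat.succ_ne_zero, if_false, pow_zero]
      omega
    · have := ih (fun j => σ (j + 1)) k v (by omega)
      simp only [cd, Nat.add_right_cancel_iff, pow_succ, (Nat.succ_ne_zero k).symm, if_false]
      linarith

def frc {α : Type} (x : ℕ) (k : ℕ → α) : α :=
  match x with
  | 0 => k 0
  | n + 1 => k (n + 1)

lemma frc_eq {α : Type} (x : ℕ) (k : ℕ → α) : frc x k = k x := by cases x <;> rfl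

/-- one edge: `0` read and clear, `1` write, `2` ignore -/
def ed {α : Type} (m q v s : ℕ) (k : ℕ → α) (fail : α) : α :=
  match m with
  | 0 => bif Nat.beq (s / q % 3) v then k (s - v * q) else fail
  | 1 => k (s + v * q)
  | _ => k s

def ins {α : Type} (x : ℕ) (l : List ℕ) (b : ℕ) (k : List ℕ → ℕ → α) : α :=
  frc x fun y => bif b.testBit y then k l b else frc (b ||| 2 ^ y) fun b' => k (y :: l) b'

def two {α : Type} (m2 q2 m3 q3 v w t : ℕ) (l : List ℕ) (b : ℕ) (k : List ℕ → ℕ → α) : α :=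
  ed m2 q2 v t (fun t2 => ed m3 q3 w t2 (fun x => ins x l b k) (k l b)) (k l b)

def loop (q1 m2 q2 m3 q3 : ℕ) : List ℕ → List ℕ → ℕ → List ℕ
  | [], l, _ => l
  | s :: r, l, b => frc (s / q1 % 3) fun d => frc (s - d * q1) fun t =>
      frc ((d + 1) % 3) fun v => frc ((d + 2) % 3) fun w =>
        two m2 q2 m3 q3 v w t l b fun l1 b1 =>
          two m2 q2 m3 q3 w v t l1 b1 fun l2 b2 => loop q1 m2 q2 m3 q3 r l2 b2

structure St where
  e1 : ℕ
  k1 : ℕ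
  e2 : ℕ
  m2 : ℕ
  k2 : ℕ
  e3 : ℕ
  m3 : ℕ
  k3 : ℕ

def run : List St → List ℕ → Bool
  | [], l => l.isEmpty
  | s :: r, l => frc (3 ^ s.k1) fun q1 => frc (3 ^ s.k2) fun q2 => frc (3 ^ s.k3) fun q3 =>
      run r (loop q1 s.m2 q2 s.m3 q3 l [] 0)

def sy (m k e : ℕ) (own : ℕ → ℕ) : ℕ → ℕ :=
  match m with
  | 0 => fun j => if j = k then 0 else own j
  | 1 => fun j => if j = k then e + 1 else own j
  | _ => own

def ok (W m k e : ℕ) (own : ℕ → ℕ) : Bool :=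
  match m with
  | 0 => own k == e + 1 && decide (k < W)
  | 1 => own k == 0 && decide (k < W)
  | _ => true

def wf (W : ℕ) : List St → (ℕ → ℕ) → Bool
  | [], _ => true
  | s :: r, own => ok W 0 s.k1 s.e1 own && ok W s.m2 s.k2 s.e2 (sy 0 s.k1 s.e1 own) &&
      ok W s.m3 s.k3 s.e3 (sy s.m2 s.k2 s.e2 (sy 0 s.k1 s.e1 own)) &&
      wf W r (sy s.m3 s.k3 s.e3 (sy s.m2 s.k2 s.e2 (sy 0 s.k1 s.e1 own)))

def vl (c : ℕ → ℕ) : ℕ → ℕ
  | 0 => 0
  | e + 1 => c e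

def tru (W : ℕ) (c own : ℕ → ℕ) : ℕ := cd W fun j => vl c (own j)

lemma vl_lt {c : ℕ → ℕ} (hc : ∀ e, c e < 3) (n : ℕ) : vl c n < 3 := by
  cases n
  exacts [by simp [vl], hc _]

lemma tru_upd (W : ℕ) (c own : ℕ → ℕ) {k : ℕ} (n : ℕ) (hk : k < W) :
    tru W c (fun j => if j = k then n else own j) + vl c (own k) * 3 ^ k =
      tru W c own + vl c n * 3 ^ k := by
  have := cd_upd W (fun j => vl c (own j)) k (vl c n) hk
  simp only [tru, apply_ite (vl c)]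
  exact this

lemma clr {W k e : ℕ} {c own : ℕ → ℕ} (hc : ∀ e, c e < 3) (h : ok W 0 k e own = true) :
    tru W c own / 3 ^ k % 3 = c e ∧ tru W c own - c e * 3 ^ k = tru W c (sy 0 k e own) := by
  simp only [ok, Bool.and_eq_true, beq_iff_eq, decide_eq_true_eq] at h
  have h1 := cd_dig W (fun j => vl c (own j)) k (fun j => vl_lt hc _) h.2
  have h2 := tru_upd W c own 0 h.2
  simp only [h.1, vl] at h1 h2
  refine ⟨h1, ?_⟩
  simp only [sy]
  omega

lemma ed_sound {α : Type} {W m k e : ℕ} {c own : ℕ → ℕ} (hc : ∀ e, c e < 3)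
    (h : ok W m k e own = true) (K : ℕ → α) (fail : α) :
    ed m (3 ^ k) (c e) (tru W c own) K fail = K (tru W c (sy m k e own)) := by
  match m, h with
  | 0, h =>
    obtain ⟨h1, h2⟩ := clr hc h
    simp only [ed, h1, Nat.beq_refl, cond_true, h2]
  | 1, h =>
    simp only [ok, Bool.and_eq_true, beq_iff_eq, decide_eq_true_eq] at h
    have h2 := tru_upd W c own (e + 1) h.2
    simp only [h.1, vl, zero_mul, add_zero] at h2
    simp only [ed, sy, h2]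
  | _ + 2, _ => rfl

def Inv (l : List ℕ) (b : ℕ) : Prop := ∀ y, b.testBit y = true → y ∈ l

lemma ins_spec {α : Type} (x : ℕ) {l : List ℕ} {b : ℕ} (h : Inv l b) (k : List ℕ → ℕ → α) :
    ∃ l' b', Inv l' b' ∧ l ⊆ l' ∧ x ∈ l' ∧ ins x l b k = k l' b' := by
  by_cases hx : b.testBit x = true
  · exact ⟨l, b, h, List.Subset.refl _, h x hx, by simp [ins, frc_eq, hx]⟩
  · refine ⟨x :: l, b ||| 2 ^ x, fun y hy => ?_, List.subset_cons_self _ _, List.mem_cons_self,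
      by simp [ins, frc_eq, hx]⟩
    rw [Nat.testBit_or, Bool.or_eq_true, Nat.testBit_two_pow, decide_eq_true_eq] at hy
    rcases hy with hy | rfl
    exacts [List.mem_cons_of_mem _ (h y hy), List.mem_cons_self]

lemma ed_or {α : Type} (m q v s : ℕ) (k : ℕ → α) (fail : α) :
    ed m q v s k fail = fail ∨ ∃ x, ed m q v s k fail = k x := by
  match m with
  | 0 =>
    simp only [ed]
    cases Nat.beq (s / q % 3) v
    exacts [Or.inl rfl, Or.inr ⟨_, rfl⟩]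
  | 1 => exact Or.inr ⟨_, rfl⟩
  | _ + 2 => exact Or.inr ⟨_, rfl⟩

lemma two_spec {α : Type} (m2 q2 m3 q3 v w t : ℕ) {l : List ℕ} {b : ℕ} (h : Inv l b)
    (k : List ℕ → ℕ → α) :
    ∃ l' b', Inv l' b' ∧ l ⊆ l' ∧ two m2 q2 m3 q3 v w t l b k = k l' b' := by
  unfold two
  rcases ed_or m2 q2 v t (fun t2 => ed m3 q3 w t2 (fun x => ins x l b k) (k l b)) (k l b) with
    e | ⟨t2, e⟩
  · exact ⟨l, b, h, List.Subset.refl _, e⟩
  · rcases ed_or m3 q3 w t2 (fun x => ins x l b k) (k l b) with e' | ⟨x, e'⟩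
    · exact ⟨l, b, h, List.Subset.refl _, e.trans e'⟩
    · obtain ⟨l', b', h1, h2, -, h3⟩ := ins_spec x h k
      exact ⟨l', b', h1, h2, e.trans (e'.trans h3)⟩

lemma loop_sub (q1 m2 q2 m3 q3 : ℕ) (r : List ℕ) : ∀ (l : List ℕ) (b : ℕ), Inv l b →
    l ⊆ loop q1 m2 q2 m3 q3 r l b := by
  induction r with
  | nil => exact fun l _ _ => List.Subset.refl _
  | cons s r ih =>
    intro l b h
    simp only [loop, frc_eq]
    obtain ⟨l1, b1, h1, s1, e1⟩ := two_spec m2 q2 m3 q3 ((s / q1 % 3 + 1) % 3)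
      ((s / q1 % 3 + 2) % 3) (s - s / q1 % 3 * q1) h fun l1 b1 =>
        two m2 q2 m3 q3 ((s / q1 % 3 + 2) % 3) ((s / q1 % 3 + 1) % 3) (s - s / q1 % 3 * q1) l1 b1
          fun l2 b2 => loop q1 m2 q2 m3 q3 r l2 b2
    obtain ⟨l2, b2, h2, s2, e2⟩ := two_spec m2 q2 m3 q3 ((s / q1 % 3 + 2) % 3)
      ((s / q1 % 3 + 1) % 3) (s - s / q1 % 3 * q1) h1 fun l2 b2 => loop q1 m2 q2 m3 q3 r l2 b2
    rw [e1, e2]
    exact List.Subset.trans (List.Subset.trans s1 s2) (ih l2 b2 h2)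

lemma loop_mem {W : ℕ} {c own : ℕ → ℕ} (hc : ∀ e, c e < 3) (s : St)
    (h1 : ok W 0 s.k1 s.e1 own = true) (h2 : ok W s.m2 s.k2 s.e2 (sy 0 s.k1 s.e1 own) = true)
    (h3 : ok W s.m3 s.k3 s.e3 (sy s.m2 s.k2 s.e2 (sy 0 s.k1 s.e1 own)) = true)
    (d1 : c s.e1 ≠ c s.e2) (d2 : c s.e2 ≠ c s.e3) (d3 : c s.e3 ≠ c s.e1) (r : List ℕ) :
    ∀ (l : List ℕ) (b : ℕ), Inv l b → tru W c own ∈ r →
      tru W c (sy s.m3 s.k3 s.e3 (sy s.m2 s.k2 s.e2 (sy 0 s.k1 s.e1 own))) ∈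
        loop (3 ^ s.k1) s.m2 (3 ^ s.k2) s.m3 (3 ^ s.k3) r l b := by
  induction r with
  | nil => intro l b _ h; simp at h
  | cons x r ih =>
    intro l b h hm
    simp only [loop, frc_eq]
    rcases List.mem_cons.1 hm with rfl | hm
    · obtain ⟨a1, a2⟩ := clr hc h1
      rw [a1, a2]
      have key : ∀ (l : List ℕ) (b : ℕ) (K : List ℕ → ℕ → List ℕ), Inv l b →
          ∃ l' b', Inv l' b' ∧
            tru W c (sy s.m3 s.k3 s.e3 (sy s.m2 s.k2 s.e2 (sy 0 s.k1 s.e1 own))) ∈ l' ∧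
            two s.m2 (3 ^ s.k2) s.m3 (3 ^ s.k3) (c s.e2) (c s.e3) (tru W c (sy 0 s.k1 s.e1 own))
              l b K = K l' b' := by
        intro l b K h
        obtain ⟨l', b', i1, -, i2, i3⟩ := ins_spec
          (tru W c (sy s.m3 s.k3 s.e3 (sy s.m2 s.k2 s.e2 (sy 0 s.k1 s.e1 own)))) h K
        exact ⟨l', b', i1, i2, by rw [two, ed_sound hc h2, ed_sound hc h3, i3]⟩
      have c1 := hc s.e1
      have c2 := hc s.e2
      have c3 := hc s.e3
      rcases (by omega : ((c s.e1 + 1) % 3 = c s.e2 ∧ (c s.e1 + 2) % 3 = c s.e3) ∨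
          ((c s.e1 + 1) % 3 = c s.e3 ∧ (c s.e1 + 2) % 3 = c s.e2)) with ⟨p, q⟩ | ⟨p, q⟩
      · rw [p, q]
        obtain ⟨l1, b1, i1, i2, i3⟩ := key l b _ h
        rw [i3]
        obtain ⟨l2, b2, j1, j2, j3⟩ := two_spec s.m2 (3 ^ s.k2) s.m3 (3 ^ s.k3) (c s.e3) (c s.e2)
          (tru W c (sy 0 s.k1 s.e1 own)) i1
          fun l2 b2 => loop (3 ^ s.k1) s.m2 (3 ^ s.k2) s.m3 (3 ^ s.k3) r l2 b2
        rw [j3]
        exact loop_sub _ _ _ _ _ r l2 b2 j1 (j2 i2)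
      · rw [p, q]
        obtain ⟨l1, b1, j1, -, j3⟩ := two_spec s.m2 (3 ^ s.k2) s.m3 (3 ^ s.k3) (c s.e3) (c s.e2)
          (tru W c (sy 0 s.k1 s.e1 own)) h fun l1 b1 =>
            two s.m2 (3 ^ s.k2) s.m3 (3 ^ s.k3) (c s.e2) (c s.e3) (tru W c (sy 0 s.k1 s.e1 own))
              l1 b1 fun l2 b2 => loop (3 ^ s.k1) s.m2 (3 ^ s.k2) s.m3 (3 ^ s.k3) r l2 b2
        rw [j3]
        obtain ⟨l2, b2, i1, i2, i3⟩ := key l1 b1 _ j1
        rw [i3]
        exact loop_sub _ _ _ _ _ r l2 b2 i1 i2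
    · obtain ⟨l1, b1, i1, -, e1⟩ := two_spec s.m2 (3 ^ s.k2) s.m3 (3 ^ s.k3)
        ((x / 3 ^ s.k1 % 3 + 1) % 3) ((x / 3 ^ s.k1 % 3 + 2) % 3)
        (x - x / 3 ^ s.k1 % 3 * 3 ^ s.k1) h fun l1 b1 =>
          two s.m2 (3 ^ s.k2) s.m3 (3 ^ s.k3) ((x / 3 ^ s.k1 % 3 + 2) % 3)
            ((x / 3 ^ s.k1 % 3 + 1) % 3) (x - x / 3 ^ s.k1 % 3 * 3 ^ s.k1) l1 b1
            fun l2 b2 => loop (3 ^ s.k1) s.m2 (3 ^ s.k2) s.m3 (3 ^ s.k3) r l2 b2
      obtain ⟨l2, b2, i2, -, e2⟩ := two_spec s.m2 (3 ^ s.k2) s.m3 (3 ^ s.k3)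
        ((x / 3 ^ s.k1 % 3 + 2) % 3) ((x / 3 ^ s.k1 % 3 + 1) % 3)
        (x - x / 3 ^ s.k1 % 3 * 3 ^ s.k1) i1
        fun l2 b2 => loop (3 ^ s.k1) s.m2 (3 ^ s.k2) s.m3 (3 ^ s.k3) r l2 b2
      rw [e1, e2]
      exact ih l2 b2 i2 hm

lemma run_sound {W : ℕ} {c : ℕ → ℕ} (hc : ∀ e, c e < 3) (L : List St) :
    ∀ (own : ℕ → ℕ) (l : List ℕ), wf W L own = true →
      (∀ s ∈ L, c s.e1 ≠ c s.e2 ∧ c s.e2 ≠ c s.e3 ∧ c s.e3 ≠ c s.e1) → tru W c own ∈ l →
      run L l = true → False := by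
  induction L with
  | nil =>
    intro own l _ _ h3 h4
    simp only [run, List.isEmpty_iff] at h4
    simp [h4] at h3
  | cons s r ih =>
    intro own l h1 h2 h3 h4
    simp only [wf, Bool.and_eq_true] at h1
    simp only [run, frc_eq] at h4
    obtain ⟨d1, d2, d3⟩ := h2 s List.mem_cons_self
    exact ih _ _ h1.2 (fun t ht => h2 t (List.mem_cons_of_mem _ ht))
      (loop_mem hc s h1.1.1.1 h1.1.1.2 h1.1.2 d1 d2 d3 l [] 0 (fun y hy => by simp at hy) h3) h4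

/-! The same sweep written with recursors, for fast evaluation. -/

noncomputable section

def frc1 {α : Type} (x : ℕ) (k : ℕ → α) : α :=
  Nat.rec (motive := fun _ => α) (k 0) (fun n _ => k (Nat.succ n)) x

def ed1 {α : Type} (m q v s : ℕ) (k : ℕ → α) (fail : α) : α :=
  Nat.rec (motive := fun _ => α)
    (Bool.rec (motive := fun _ => α) fail (k (Nat.sub s (Nat.mul v q)))
      (Nat.beq (Nat.mod (Nat.div s q) 3) v))
    (fun m _ => Nat.rec (motive := fun _ => α) (k (Nat.add s (Nat.mul v q))) (fun _ _ => k s) m) m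

def ins1 {α : Type} (x : ℕ) (l : List ℕ) (b : ℕ) (k : List ℕ → ℕ → α) : α :=
  frc1 x fun y => Nat.rec (motive := fun _ => α) (k (y :: l) (Nat.lor b (Nat.shiftLeft 1 y)))
    (fun _ _ => k l b) (Nat.land 1 (Nat.shiftRight b y))

def two1 {α : Type} (m2 q2 m3 q3 v w t : ℕ) (l : List ℕ) (b : ℕ) (k : List ℕ → ℕ → α) : α :=
  ed1 m2 q2 v t (fun t2 => ed1 m3 q3 w t2 (fun x => ins1 x l b k) (k l b)) (k l b)

def loop1 (q1 m2 q2 m3 q3 : ℕ) (L : List ℕ) : List ℕ → ℕ → List ℕ :=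
  List.rec (motive := fun _ => List ℕ → ℕ → List ℕ) (fun l _ => l) (fun s _ ih l b =>
    frc1 (Nat.mod (Nat.div s q1) 3) fun d => frc1 (Nat.sub s (Nat.mul d q1)) fun t =>
      frc1 (Nat.mod (Nat.add d 1) 3) fun v => frc1 (Nat.mod (Nat.add d 2) 3) fun w =>
        two1 m2 q2 m3 q3 v w t l b fun l1 b1 => two1 m2 q2 m3 q3 w v t l1 b1 ih) L

def run1 (L : List St) : List ℕ → Bool :=
  List.rec (motive := fun _ => List ℕ → Bool) (fun l => l.isEmpty) (fun s _ ih l =>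
    frc1 (3 ^ s.k1) fun q1 => frc1 (3 ^ s.k2) fun q2 => frc1 (3 ^ s.k3) fun q3 =>
      frc1 s.m2 fun m2 => frc1 s.m3 fun m3 => ih (loop1 q1 m2 q2 m3 q3 l [] 0)) L

end

lemma frc1_eq {α : Type} (x : ℕ) (k : ℕ → α) : frc1 x k = k x := by cases x <;> rfl

lemma ed1_eq {α : Type} (m q v s : ℕ) (k : ℕ → α) (fail : α) :
    ed1 m q v s k fail = ed m q v s k fail := by
  match m with
  | 0 =>
    change Bool.rec (motive := fun _ => α) fail (k (s - v * q)) (Nat.beq (s / q % 3) v) =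
      bif Nat.beq (s / q % 3) v then k (s - v * q) else fail
    cases Nat.beq (s / q % 3) v <;> rfl
  | 1 => rfl
  | _ + 2 => rfl

lemma ins1_eq {α : Type} (x : ℕ) (l : List ℕ) (b : ℕ) (k : List ℕ → ℕ → α) :
    ins1 x l b k = ins x l b k := by
  simp only [ins1, ins, frc1_eq, frc_eq, Nat.testBit]
  change Nat.rec (motive := fun _ => α) (k (x :: l) (b ||| 1 <<< x)) (fun _ _ => k l b)
    (1 &&& b >>> x) = _
  rw [Nat.one_shiftLeft]
  cases 1 &&& b >>> x <;> rfl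

lemma two1_eq {α : Type} (m2 q2 m3 q3 v w t : ℕ) (l : List ℕ) (b : ℕ) (k : List ℕ → ℕ → α) :
    two1 m2 q2 m3 q3 v w t l b k = two m2 q2 m3 q3 v w t l b k := by
  simp only [two1, two, ed1_eq, ins1_eq]

lemma loop1_eq (q1 m2 q2 m3 q3 : ℕ) (L : List ℕ) :
    loop1 q1 m2 q2 m3 q3 L = loop q1 m2 q2 m3 q3 L := by
  induction L with
  | nil => rfl
  | cons s r ih =>
    funext l b
    simp only [loop, frc_eq, ← ih, ← two1_eq]
    simp only [loop1, frc1_eq]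
    rfl

lemma run1_eq (L : List St) : run1 L = run L := by
  induction L with
  | nil => rfl
  | cons s r ih =>
    funext l
    simp only [run, frc_eq, ← ih, ← loop1_eq]
    simp only [run1, frc1_eq]

end Pool.Agent.MP_06b47d_co.W4
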