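import Pool.Agent.MP_06b47d_co.W4.Hand
import Pool.Agent.MP_06b47d_co.W4.Dp

/-! A triangulation of the genus four surface on 36 vertices in which every triangle is a face
and which has no proper colouring, even without two adjacent faces. -/

set_option autoImplicit false

open Relation

namespace Pool.Agent.MP_06b47d_co.W4

def tab : ℕ :=
  0xfffffffffffffffffffffffffc9ffffffffffff1bffc4fc0ffffd2fffffffffffffff03ffffffffffffffffffffff649ffffc8ffffc4ffffffffffc0fff3ffffffffffffff33ffc7ffffff73ffffffffd9fffffffccfffffffffffffffffffff0bffcffffffffffffffc17bffffffffd2ffffffffffffffffcbfffffffde17fffffff33fffffffffffc133ffd6fff37ffd9ffffdf484fff420ffffffffffd1fff73fffffffffffc753ffff6fffdcffffffffffffffffff5ffffffffffffff1fffc153ffffffffdefd35bffffffffffffffff77fffffff021fffffffff5fffff53f3fffddffffff67fffffffffffffffffffffffffffffffffffff594fd5619fffffffffffffffffffffffffffffffc903ff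d6fff3d4ffffdafdbffffff87f7bffff37fffffffffffe2fffffffffffffd5ffffff1daffffffffffffffffff0bfffffd4ffffffffffff1ff77fffffce5bfffffff6cffffffffff57fffffffffffffffffdcfd3fd97bf57f6bf3bfffffd7ffffffffffffffffffffffffffffffffffd6fda1d7fffffffffffffffffffff63fffffffffffffffffff6dd658682ffffff73fffffffffffffffffffffffd3fffffffffffffd4fffffffdcfc2fffffffd6ffffffffffffffffcefff03ffff791ffffffffffffffffff2bfffffff7c98ffffffffffffcbfffffffc4ffffffffffffffffdeffffffffffd2fffffffc32bfffffffffffcdffffffffffffffffffffffff0bfffffff13ffdefc7ffffff64cffffff5ff6ff3bfffffffffffc2fe1fffffffffffffe0fffffffffffffffffffff593fff0bffff5ffffffffffffffffffcfffffffffffd9ffffff27fffffffffffdefffffffff0bffffffffd0ffffff3de15ffffffffffffffffffffff83fffffff2078491bfffffffffffff4bfffffffffffffffffc0ffffffffffffffffff7fffc5fc2fffffffffffffffffffffffffd10fffffffffff4bfffffff089fff488ffffffffffff8bffffffffcaffffff646f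c2fccfe3ffffcdffffc4fffffffffffffffffffffffffffffffc9fff8bf33ffc7fffffffff33ffff721ffffd577f5ffffffc2ffffc8ffffc4ffffd0fd8fff27ffffffffffffffffffffffffffffffffc5fff33ffff123ffffffffffff2fffffffffffffffffffffffffffdf0bfffffccfc6103fff180ffffd0ffffffffffffffffff787ffffffffffe22050ff47ffe3fffffffffffffffffffffffffff13ffffffffd1ffffff085fcafffffffcfffffffffffc7ffffd853ffcd39327f0032bf43f2ff17f801ffffc2fe0fdefffffffffffffffffffffffffffffffffffffc0fdc11973fffffc1fff87ffffffffe3fffffffff4bffffffffe2fcb0bf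

def nv (a b : ℕ) : ℕ := tab >>> (6 * (36 * a + b)) % 64

def ad (a b : Fin 36) : Prop := nv a b < 36

instance (a b : Fin 36) : Decidable (ad a b) := by unfold ad; infer_instance

def nf (a b : Fin 36) : Fin 36 := Fin.ofNat 36 (nv a b)

lemma b_symm : ∀ a b, ad a b → ad b a := by decide +kernel

lemma b_h1 : ∀ a b, ad a b → ad b (nf a b) := by decide +kernel

lemma b_iter {v u : Fin 36} (h : ad v u) (k : ℕ) : ad v ((fun x => nf x v)^[k] u) ∧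
    ReflTransGen (fun x y => ad v x ∧ y = nf x v) u ((fun x => nf x v)^[k] u) := by
  induction k with
  | zero => exact ⟨h, .refl⟩
  | succ k ih =>
    rw [Function.iterate_succ_apply']
    exact ⟨b_h1 _ _ (b_symm _ _ ih.1), ih.2.tail ⟨ih.1, rfl⟩⟩

/-- a neighbour of each vertex -/
def nb (v : Fin 36) : Fin 36 := ((List.finRange 36).find? fun u => decide (ad v u)).getD 0

lemma b_nb : ∀ v, ad v (nb v) := by decide +kernel

lemma b_link : ∀ v u, ad v u → (∃ k < 16, (fun x => nf x v)^[k] u = nb v) ∧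
    ∃ k < 16, (fun x => nf x v)^[k] (nb v) = u := by
  decide +kernel

lemma b_conn (a : Fin 36) : ReflTransGen ad a 0 ∧ ReflTransGen ad 0 a := by
  have h : ∀ a : Fin 36, a = 0 ∨ ∃ b < a, ad a b := by decide +kernel
  induction a using WellFoundedLT.induction with
  | ind a ih =>
    rcases h a with rfl | ⟨b, h1, h2⟩
    · exact ⟨.refl, .refl⟩
    · exact ⟨.head h2 (ih b h1).1, (ih b h1).2.tail (b_symm _ _ h2)⟩

def base : Pre (Fin 36) where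
  adj := ad
  nx := nf
  symm := b_symm _ _
  irr := by decide +kernel
  h1 := b_h1 _ _
  h2 := fun {a b} => by revert a b; decide +kernel
  link := fun {v u w} h1 h2 => by
    obtain ⟨k, -, e⟩ := (b_link v u h1).1
    obtain ⟨l, -, rfl⟩ := (b_link v w h2).2
    exact (e ▸ (b_iter h1 k).2).trans (b_iter (b_nb v) l).2
  conn := fun a b => (b_conn a).1.trans (b_conn b).2

lemma base_darts : base.darts = 252 := by
  have : (∑ x : Fin 36, ∑ y : Fin 36, if ad x y then 1 else 0) = 252 := by decide +kernel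
  rw [← this]
  classical
  exact Finset.sum_congr rfl fun x _ => Finset.sum_congr rfl fun y _ => if_congr Iff.rfl rfl rfl

lemma base_clean : Clean base := by
  have : ∀ x y, ad x y → ∀ z, ad y z → ad z x → nf x y = z ∨ nf y x = z := by decide +kernel
  exact fun x y z h1 h2 h3 => this x y h1 z h2 h3

def raw : List (Fin 36 × Fin 36 × ℕ × ℕ × ℕ × ℕ × ℕ) :=
  [(11, 0, 0, 1, 0, 1, 2), (0, 11, 1, 1, 1, 1, 3), (11, 2, 2, 1, 2, 1, 4), (18, 11, 1, 1, 1, 1,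
    5), (31, 11, 1, 0, 4, 1, 1), (5, 2, 2, 1, 2, 1, 4), (3, 2, 2, 1, 2, 1, 6), (5, 3, 4, 1, 4,
    1, 7), (3, 10, 6, 1, 6, 1, 8), (4, 3, 4, 0, 8, 1, 4), (4, 17, 4, 1, 4, 1, 8), (17, 10, 6, 1,
    6, 1, 9), (30, 17, 4, 0, 9, 1, 4), (30, 18, 4, 0, 5, 1, 4), (31, 5, 1, 1, 1, 1, 5), (31, 12,
    5, 1, 5, 0, 4), (10, 2, 2, 1, 2, 1, 4), (18, 10, 6, 0, 4, 1, 4), (0, 18, 3, 1, 3, 1, 6),
    (35, 18, 3, 0, 4, 1, 3), (12, 5, 1, 1, 1, 1, 4), (6, 5, 1, 0, 7, 1, 1), (35, 9, 3, 1, 3, 1,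
    7), (35, 6, 7, 0, 1, 1, 1), (35, 4, 1, 1, 1, 0, 6), (6, 9, 3, 1, 3, 0, 4), (12, 9, 3, 1, 3,
    1, 4), (8, 9, 3, 1, 3, 1, 6), (8, 34, 6, 1, 6, 1, 7), (0, 4, 1, 0, 6, 1, 1), (34, 9, 3, 1,
    3, 1, 6), (0, 34, 1, 0, 6, 1, 1), (8, 4, 7, 1, 6, 1, 7), (12, 8, 4, 0, 7, 1, 4), (9, 2, 2,
    1, 2, 1, 7), (9, 13, 7, 1, 7, 0, 3), (4, 30, 8, 1, 3, 1, 8), (7, 4, 6, 0, 8, 1, 6), (7, 16,
    6, 1, 6, 1, 8), (13, 2, 2, 0, 6, 1, 2), (13, 16, 2, 0, 3, 1, 2), (13, 30, 2, 2, 0, 0, 7),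
    (12, 7, 4, 1, 2, 1, 3), (30, 12, 5, 1, 4, 1, 5), (32, 12, 4, 1, 4, 1, 6), (15, 12, 4, 0, 3,
    1, 3), (15, 33, 3, 1, 3, 1, 4), (25, 33, 3, 1, 3, 0, 1), (33, 7, 2, 1, 1, 1, 2), (0, 33, 3,
    0, 2, 1, 2), (2, 0, 0, 1, 0, 1, 3), (1, 0, 0, 0, 2, 1, 0), (1, 28, 0, 2, 0, 1, 0), (1, 30,
    0, 0, 5, 1, 0), (2, 1, 3, 0, 0, 1, 0), (32, 15, 6, 1, 2, 0, 0), (7, 2, 8, 1, 0, 1, 3), (28,
    7, 1, 1, 1, 1, 5), (29, 7, 1, 1, 1, 1, 6), (7, 24, 3, 1, 3, 1, 7), (7, 21, 7, 1, 7, 0, 1),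
    (15, 25, 4, 1, 1, 1, 4), (29, 23, 6, 1, 6, 1, 8), (27, 23, 6, 1, 6, 0, 4), (28, 29, 5, 1, 4,
    1, 5), (29, 27, 8, 1, 8, 0, 4), (20, 27, 8, 0, 1, 1, 1), (2, 15, 2, 1, 2, 1, 4), (14, 15, 2,
    0, 6, 1, 2), (23, 21, 7, 1, 6, 1, 7), (14, 23, 2, 0, 7, 1, 2), (22, 21, 6, 1, 6, 1, 7), (26,
    21, 6, 0, 3, 1, 3), (22, 26, 7, 1, 6, 2, 0), (20, 25, 1, 0, 6, 1, 1), (20, 26, 1, 0, 3, 1,
    1), (24, 2, 0, 1, 0, 0, 1), (2, 14, 4, 1, 1, 1, 3), (2, 19, 3, 1, 3, 0, 0), (28, 20, 5, 0,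
    3, 1, 0), (14, 22, 2, 1, 2, 0, 1), (28, 19, 0, 0, 2, 2, 0)]

def mk (p : Fin 36 × Fin 36 × ℕ × ℕ × ℕ × ℕ × ℕ) : St :=
  ⟨code 36 p.1 p.2.1, p.2.2.1, code 36 p.2.1 (nf p.1 p.2.1), p.2.2.2.1, p.2.2.2.2.1,
    code 36 (nf p.1 p.2.1) p.1, p.2.2.2.2.2.1, p.2.2.2.2.2.2⟩

lemma raw_ok : ∀ p ∈ raw, ad p.1 p.2.1 ∧ ¬ Fq 22 25 30 28 p.1 p.2.1 ∧
    ¬ Fq 22 25 30 28 p.2.1 (nf p.1 p.2.1) ∧ ¬ Fq 22 25 30 28 (nf p.1 p.2.1) p.1 := by
  decide +kernel

lemma raw_wf : wf 10 (raw.map mk) (fun j => if j < 2 then 12 else 0) = true := by decide +kernel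

lemma raw_run : run (raw.map mk) [0] = true := by
  rw [← run1_eq]
  decide +kernel

lemma base_bad : Bad4 base 22 25 30 28 := by
  rintro ⟨f, f1, f2⟩
  obtain ⟨c, hc⟩ := exists_code (fun x y => f x y - f 0 11) fun x y => by rw [f1 x y]
  have c0 : c 11 = 0 := (hc 0 11).trans (sub_self _)
  refine run_sound (W := 10) (c := fun e => (c e).1) (fun e => (c e).2) _ _ _ raw_wf ?_ ?_ raw_run
  · intro s hs
    obtain ⟨p, hp, rfl⟩ := List.mem_map.1 hs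
    obtain ⟨a1, a2, a3, a4⟩ := raw_ok p hp
    have b1 := f2 _ _ a1 a2
    have b2 := f2 _ _ (base.h1 a1) a3
    have b3 := f2 _ _ (base.h4 a1) a4
    rw [base.h2 a1] at b2
    rw [base.h3 a1] at b3
    simp only [mk, hc, Ne, Fin.val_inj, sub_left_inj]
    exact ⟨b1, b2, b3⟩
  · simp [tru, cd, vl, c0]

lemma good_four : Good4 4 :=
  ⟨Fin 36, inferInstance, base, 22, 25, 30, 28,
    ⟨show ad 22 25 by decide +kernel, show nf 22 25 = 30 by decide +kernel,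
      show nf 22 30 = 28 by decide +kernel, show ¬ ad 25 28 by decide +kernel, by decide⟩,
    by rw [base_darts, Fintype.card_fin], base_clean, base_bad⟩

lemma good_ge {g : ℕ} (h : 4 ≤ g) : Good4 g := by
  induction g, h using Nat.le_induction with
  | base => exact good_four
  | succ _ _ ih => exact ih.succ

end Pool.Agent.MP_06b47d_co.W4
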