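import Pool.Agent.Mg.F06b47d.Gb1d3a4

/-! Adding a handle along a pair of adjacent faces without creating new triangles. -/

set_option autoImplicit false

open Relation

namespace Pool.Agent.MP_06b47d_co.W4

/-- third vertex in the thirteen-vertex torus -/
def tz (i j : Fin 13) : Fin 13 := 4 * j + 10 * i

/-- adjacency in the thirteen-vertex torus with the edge `0 4` removed -/
def KA (i j : Fin 13) : Prop :=
  (j = i + 1 ∨ j = i + 3 ∨ j = i + 4 ∨ j = i + 9 ∨ j = i + 10 ∨ j = i + 12) ∧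
    ¬ (i = 0 ∧ j = 4) ∧ ¬ (i = 4 ∧ j = 0)

instance (i j : Fin 13) : Decidable (KA i j) := by unfold KA; infer_instance

/-- darts of the remaining faces -/
def T4 (i j : Fin 13) : Prop :=
  KA i j ∧ ¬ (i = 0 ∧ j = 1) ∧ ¬ (i = 1 ∧ j = 4) ∧ ¬ (i = 4 ∧ j = 3) ∧ ¬ (i = 3 ∧ j = 0)

instance (i j : Fin 13) : Decidable (T4 i j) := by unfold T4; infer_instance

def Inn (i : Fin 13) : Prop := i ≠ 0 ∧ i ≠ 1 ∧ i ≠ 3 ∧ i ≠ 4

instance (i : Fin 13) : Decidable (Inn i) := by unfold Inn; infer_instance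

def Rch (i j t : Fin 13) : Prop :=
  ∃ k < 7, (∀ l < k, T4 ((fun x => tz x i)^[l] j) i) ∧ (fun x => tz x i)^[k] j = t

instance (i j t : Fin 13) : Decidable (Rch i j t) := by unfold Rch; infer_instance

lemma ka_symm : ∀ i j, KA i j → KA j i := by decide +kernel
lemma ka_irr : ∀ i, ¬ KA i i := by decide +kernel
lemma t_b : ∀ i j, T4 i j → T4 j (tz i j) := by decide +kernel
lemma t_c : ∀ i j, tz j (tz i j) = i := by decide +kernel
lemma t_d : ∀ i j t, Inn i → KA i j → KA i t → Rch i j t := by decide +kernel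
lemma t_e : ∀ i j, KA i j → Inn i ∨ Inn j → T4 i j := by decide +kernel
lemma t_f : ∀ i j, KA i j → ∀ k, KA j k → KA k i →
    (T4 i j ∧ tz i j = k) ∨ (T4 j i ∧ tz j i = k) := by decide +kernel
lemma t_g : ∀ j, Inn j → (KA 0 j → Rch 0 j 3 ∧ Rch 0 1 j) ∧ (KA 1 j → Rch 1 j 0 ∧ Rch 1 4 j) ∧
    (KA 3 j → Rch 3 j 4 ∧ Rch 3 0 j) ∧ (KA 4 j → Rch 4 j 1 ∧ Rch 4 3 j) := by decide +kernel

lemma t_h : ∀ i : Fin 12, KA i.castSucc i.succ := by decide +kernel

def inn : Fin 9 → Fin 13 := ![2, 5, 6, 7, 8, 9, 10, 11, 12]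

lemma inn_inn : ∀ k, Inn (inn k) := by decide +kernel

variable {V : Type}

/-- every triangle of the graph is a face -/
def Clean (P : Pre V) : Prop :=
  ∀ x y z, P.adj x y → P.adj y z → P.adj z x → P.nx x y = z ∨ P.nx y x = z

/-- the darts of the faces `a b c` and `a c d` -/
def Fq (a b c d x y : V) : Prop :=
  (x = a ∧ y = b) ∨ (x = b ∧ y = c) ∨ (x = c ∧ y = d) ∨ (x = d ∧ y = a) ∨
    (x = c ∧ y = a) ∨ (x = a ∧ y = c)

instance [DecidableEq V] (a b c d x y : V) : Decidable (Fq a b c d x y) := by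
  unfold Fq; infer_instance

def Bad4 (P : Pre V) (a b c d : V) : Prop :=
  ¬ ∃ f : V → V → Fin 3, (∀ x y, f x y = f y x) ∧
    ∀ x y, P.adj x y → ¬ Fq a b c d x y → f x y ≠ f y (P.nx x y)

structure Quad (P : Pre V) (a b c d : V) : Prop where
  ab : P.adj a b
  hc : P.nx a b = c
  hd : P.nx a c = d
  bd : ¬ P.adj b d
  ne : b ≠ d

section

variable [DecidableEq V] (P : Pre V) (a b c d : V)

def emb : Fin 13 → V ⊕ Fin 9 :=
  ![.inl b, .inl a, .inr 0, .inl c, .inl d, .inr 1, .inr 2, .inr 3, .inr 4, .inr 5, .inr 6,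
    .inr 7, .inr 8]

def lab : V ⊕ Fin 9 → Fin 13
  | .inl x => if x = a then 1 else if x = b then 0 else if x = c then 3 else 4
  | .inr k => inn k

def Bd (x : V) : Prop := x = a ∨ x = b ∨ x = c ∨ x = d

def adj' : V ⊕ Fin 9 → V ⊕ Fin 9 → Prop
  | .inl x, .inl y => P.adj x y ∧ ¬ (x = a ∧ y = c) ∧ ¬ (x = c ∧ y = a)
  | .inl x, .inr k => Bd a b c d x ∧ KA (lab a b c (.inl x)) (inn k)
  | .inr k, .inl y => Bd a b c d y ∧ KA (inn k) (lab a b c (.inl y))
  | .inr i, .inr j => KA (inn i) (inn j)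

def nx' : V ⊕ Fin 9 → V ⊕ Fin 9 → V ⊕ Fin 9
  | .inl x, .inl y => if Fq a b c d x y then
      emb a b c d (tz (lab a b c (.inl x)) (lab a b c (.inl y))) else .inl (P.nx x y)
  | x, y => emb a b c d (tz (lab a b c x) (lab a b c y))

variable {P a b c d}

omit [DecidableEq V] in
lemma emb_inn (k : Fin 9) : emb a b c d (inn k) = .inr k := by fin_cases k <;> rfl

omit [DecidableEq V] in
lemma emb_cases (i : Fin 13) : i = 0 ∨ i = 1 ∨ i = 3 ∨ i = 4 ∨ ∃ k, i = inn k := by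
  revert i; decide +kernel

omit [DecidableEq V] in
lemma Quad.basic (Q : Quad P a b c d) : (P.adj b c ∧ P.adj c a ∧ P.adj c d ∧ P.adj d a) ∧
    (P.nx b c = a ∧ P.nx c a = b ∧ P.nx c d = a ∧ P.nx d a = c) ∧
    a ≠ b ∧ b ≠ c ∧ c ≠ a ∧ c ≠ d ∧ d ≠ a := by
  obtain ⟨ab, hc, hd, -, -⟩ := Q
  have n : ∀ {x y}, P.adj x y → x ≠ y := fun h e => P.irr _ (e ▸ h)
  have bc : P.adj b c := hc ▸ P.h1 ab
  have ca : P.adj c a := hc ▸ P.h4 ab
  have cd : P.adj c d := hd ▸ P.h1 (P.symm ca)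
  have da : P.adj d a := hd ▸ P.h4 (P.symm ca)
  exact ⟨⟨bc, ca, cd, da⟩, ⟨hc ▸ P.h2 ab, hc ▸ P.h3 ab, hd ▸ P.h2 (P.symm ca),
    hd ▸ P.h3 (P.symm ca)⟩, n ab, n bc, n ca, n cd, n da⟩

section

variable (Q : Quad P a b c d)
include Q

lemma lab_emb (i : Fin 13) : lab a b c (emb a b c d i) = i := by
  obtain ⟨-, -, n1, n2, n3, n4, n5⟩ := Q.basic
  have n6 := Q.ne
  rcases emb_cases i with rfl | rfl | rfl | rfl | ⟨k, rfl⟩
  · simp [emb, lab, n1.symm]
  · simp [emb, lab]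
  · simp [emb, lab, n3, n2.symm]
  · simp [emb, lab, n5, n6.symm, n4.symm]
  · rw [emb_inn]; rfl

lemma bd_emb {x : V} (h : Bd a b c d x) :
    ∃ i, ¬ Inn i ∧ .inl x = emb a b c d i ∧ lab a b c (.inl x) = i := by
  rcases h with h | h | h | h <;> rw [h]
  exacts [⟨1, by decide, rfl, lab_emb Q 1⟩, ⟨0, by decide, rfl, lab_emb Q 0⟩,
    ⟨3, by decide, rfl, lab_emb Q 3⟩, ⟨4, by decide, rfl, lab_emb Q 4⟩]

lemma adj_emb (i j : Fin 13) : adj' P a b c d (emb a b c d i) (emb a b c d j) ↔ KA i j := by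
  obtain ⟨⟨b1, b2, b3, b4⟩, -, n1, n2, n3, n4, n5⟩ := Q.basic
  have n6 := Q.ne
  have b0 := Q.ab
  have b5 := Q.bd
  have b6 : ¬ P.adj d b := fun h => b5 (P.symm h)
  have l0 : lab a b c (.inl b) = 0 := lab_emb Q 0
  have l1 : lab a b c (.inl a) = 1 := lab_emb Q 1
  have l3 : lab a b c (.inl c) = 3 := lab_emb Q 3
  have l4 : lab a b c (.inl d) = 4 := lab_emb Q 4
  have e0 : emb a b c d 0 = .inl b := rfl
  have e1 : emb a b c d 1 = .inl a := rfl
  have e3 : emb a b c d 3 = .inl c := rfl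
  have e4 : emb a b c d 4 = .inl d := rfl
  have k : KA 0 1 ∧ KA 1 0 ∧ KA 0 3 ∧ KA 3 0 ∧ KA 1 4 ∧ KA 4 1 ∧ KA 3 4 ∧ KA 4 3 ∧ ¬ KA 0 4 ∧
      ¬ KA 4 0 ∧ ¬ KA 1 3 ∧ ¬ KA 3 1 := by decide +kernel
  rcases emb_cases i with rfl | rfl | rfl | rfl | ⟨k, rfl⟩ <;>
    rcases emb_cases j with rfl | rfl | rfl | rfl | ⟨l, rfl⟩ <;>
    simp [emb_inn, adj', Bd, P.irr, ka_irr, P.symm b0, P.symm b1,
      P.symm b3, P.symm b4, n1.symm, n2.symm, n3.symm, n4.symm, n5.symm, n6.symm, *]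

lemma nx_emb {i j : Fin 13} (h : T4 i j) :
    nx' P a b c d (emb a b c d i) (emb a b c d j) = emb a b c d (tz i j) := by
  have hi := lab_emb Q i
  have hj := lab_emb Q j
  have e0 : emb a b c d 0 = .inl b := rfl
  have e1 : emb a b c d 1 = .inl a := rfl
  have e3 : emb a b c d 3 = .inl c := rfl
  have e4 : emb a b c d 4 = .inl d := rfl
  rcases emb_cases i with rfl | rfl | rfl | rfl | ⟨k, rfl⟩ <;>
    rcases emb_cases j with rfl | rfl | rfl | rfl | ⟨l, rfl⟩ <;>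
    first
    | exact absurd h (by decide +kernel)
    | (simp only [e0, e1, e3, e4, emb_inn] at hi hj ⊢
       simp [nx', Fq, hi, hj])

lemma cases' {x y : V ⊕ Fin 9} (h : adj' P a b c d x y) :
    (∃ u v, P.adj u v ∧ ¬ Fq a b c d u v ∧ x = .inl u ∧ y = .inl v) ∨
      ∃ i j, T4 i j ∧ x = emb a b c d i ∧ y = emb a b c d j := by
  rcases x with x | x <;> rcases y with y | y
  · by_cases h1 : Fq a b c d x y
    · rcases h1 with ⟨e, e'⟩ | ⟨e, e'⟩ | ⟨e, e'⟩ | ⟨e, e'⟩ | h1 | h1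
      exacts [Or.inr ⟨1, 0, by decide, e ▸ rfl, e' ▸ rfl⟩,
        Or.inr ⟨0, 3, by decide, e ▸ rfl, e' ▸ rfl⟩, Or.inr ⟨3, 4, by decide, e ▸ rfl, e' ▸ rfl⟩,
        Or.inr ⟨4, 1, by decide, e ▸ rfl, e' ▸ rfl⟩, absurd h1 h.2.2, absurd h1 h.2.1]
    · exact Or.inl ⟨x, y, h.1, h1, rfl, rfl⟩
  · obtain ⟨i, -, e, l⟩ := bd_emb Q h.1
    exact Or.inr ⟨i, inn y, t_e _ _ (l ▸ h.2) (Or.inr (inn_inn y)), e, (emb_inn y).symm⟩
  · obtain ⟨i, -, e, l⟩ := bd_emb Q h.1
    exact Or.inr ⟨inn x, i, t_e _ _ (l ▸ h.2) (Or.inl (inn_inn x)), (emb_inn x).symm, e⟩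
  · exact Or.inr ⟨inn x, inn y, t_e _ _ h (Or.inl (inn_inn x)), (emb_inn x).symm,
      (emb_inn y).symm⟩

omit [DecidableEq V] in
lemma nf_next {u v : V} (h : P.adj u v) (h1 : ¬ Fq a b c d u v) :
    ¬ Fq a b c d v (P.nx u v) := by
  obtain ⟨-, ⟨b1, b2, b3, b4⟩, -⟩ := Q.basic
  have b5 := Q.hc
  have b6 := Q.hd
  have h2 := P.h2 h
  rintro (⟨h3, h4⟩ | ⟨h3, h4⟩ | ⟨h3, h4⟩ | ⟨h3, h4⟩ | ⟨h3, h4⟩ | ⟨h3, h4⟩) <;> rw [h4] at h2 <;>
    rw [h3] at h2 <;> apply h1 <;> simp [Fq, ← h2, *]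

omit Q in
lemma nx_inl {u v : V} (h1 : ¬ Fq a b c d u v) :
    nx' P a b c d (.inl u) (.inl v) = .inl (P.nx u v) := by simp [nx', h1]

omit Q in
lemma adj_inl {u v : V} (h : P.adj u v) (h1 : ¬ Fq a b c d u v) :
    adj' P a b c d (.inl u) (.inl v) :=
  ⟨h, fun e => h1 (by simp [Fq, e]), fun e => h1 (by simp [Fq, e])⟩

omit Q in
lemma symm' {x y : V ⊕ Fin 9} (h : adj' P a b c d x y) : adj' P a b c d y x := by
  rcases x with x | x <;> rcases y with y | y
  exacts [⟨P.symm h.1, fun e => h.2.2 e.symm, fun e => h.2.1 e.symm⟩, ⟨h.1, ka_symm _ _ h.2⟩,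
    ⟨h.1, ka_symm _ _ h.2⟩, ka_symm _ _ h]

lemma link_emb {i j t : Fin 13} (h : Rch i j t) :
    ReflTransGen (fun x y => adj' P a b c d (emb a b c d i) x ∧
      y = nx' P a b c d x (emb a b c d i)) (emb a b c d j) (emb a b c d t) := by
  obtain ⟨k, h0, h, rfl⟩ := h
  clear h0
  induction k with
  | zero => exact .refl
  | succ k ih =>
    have h1 := h k (by omega)
    refine (ih fun l hl => h l (by omega)).tail ⟨(adj_emb Q _ _).2 (ka_symm _ _ h1.1), ?_⟩
    rw [nx_emb Q h1, Function.iterate_succ_apply']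

omit Q in
/-- the neighbour replacing the removed diagonal -/
def rp (a b c d v x : V) : V := if v = a ∧ x = c then b else if v = c ∧ x = a then d else x

lemma link_old {v u w : V} (h : ReflTransGen (fun x y => P.adj v x ∧ y = P.nx x v) u w) :
    ReflTransGen (fun x y => adj' P a b c d (.inl v) x ∧ y = nx' P a b c d x (.inl v))
      (.inl (rp a b c d v u)) (.inl (rp a b c d v w)) := by
  obtain ⟨-, ⟨b1, b2, b3, b4⟩, n1, n2, n3, n4, n5⟩ := Q.basic
  have n6 := Q.ne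
  induction h with
  | refl => exact .refl
  | @tail x y _ h2 ih =>
    obtain ⟨h3, rfl⟩ := h2
    by_cases h1 : Fq a b c d x v
    · refine ih.trans ?_
      rcases h1 with ⟨e, e'⟩ | ⟨e, e'⟩ | ⟨e, e'⟩ | ⟨e, e'⟩ | ⟨e, e'⟩ | ⟨e, e'⟩ <;> rw [e, e']
      · rw [Q.hc]
        simp only [rp, n1.symm, n2, false_and, if_false]
        exact link_emb Q (i := 0) (j := 1) (t := 3) (by decide +kernel)
      · rw [b1]
        simp only [rp, n3, n1.symm, false_and, and_false, if_false, and_self, if_true]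
        exact link_emb Q (i := 3) (j := 0) (t := 4) (by decide +kernel)
      · rw [b3]
        simp only [rp, n5, n4.symm, false_and, if_false]
        exact link_emb Q (i := 4) (j := 3) (t := 1) (by decide +kernel)
      · rw [b4]
        simp only [rp, n3.symm, n4.symm, false_and, and_false, if_false, and_self, if_true]
        exact link_emb Q (i := 1) (j := 4) (t := 0) (by decide +kernel)
      · rw [b2]
        simp [rp, n2, n3.symm, ReflTransGen.refl]
      · rw [Q.hd]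
        simp [rp, n3, n5, ReflTransGen.refl]
    · have h4 := nf_next Q (P.symm h3) h1
      have r1 : rp a b c d v x = x := by
        rw [rp, if_neg fun e => h1 (by simp [Fq, e]), if_neg fun e => h1 (by simp [Fq, e])]
      have r2 : rp a b c d v (P.nx x v) = P.nx x v := by
        rw [rp, if_neg fun e => h4 (.inr (.inr (.inr (.inr (.inr e))))),
          if_neg fun e => h4 (.inr (.inr (.inr (.inr (.inl e)))))]
      rw [r1] at ih
      rw [r2]
      exact ih.tail ⟨symm' (adj_inl (P.symm h3) h1), (nx_inl h1).symm⟩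

lemma link_old' {v u w : V} (h1 : adj' P a b c d (.inl v) (.inl u))
    (h2 : adj' P a b c d (.inl v) (.inl w)) :
    ReflTransGen (fun x y => adj' P a b c d (.inl v) x ∧ y = nx' P a b c d x (.inl v))
      (.inl u) (.inl w) := by
  have := link_old Q (P.link h1.1 h2.1)
  rwa [rp, rp, if_neg h1.2.1, if_neg h1.2.2, if_neg h2.2.1, if_neg h2.2.2] at this

lemma link_new {v : V} {x : V ⊕ Fin 9} (h : adj' P a b c d (.inl v) x) :
    (∃ u, adj' P a b c d (.inl v) (.inl u) ∧ ReflTransGen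
      (fun x y => adj' P a b c d (.inl v) x ∧ y = nx' P a b c d x (.inl v)) x (.inl u)) ∧
    ∃ w, adj' P a b c d (.inl v) (.inl w) ∧ ReflTransGen
      (fun x y => adj' P a b c d (.inl v) x ∧ y = nx' P a b c d x (.inl v)) (.inl w) x := by
  rcases x with x | x
  · exact ⟨⟨x, h, .refl⟩, x, h, .refl⟩
  · obtain ⟨g0, g1, g3, g4⟩ := t_g _ (inn_inn x)
    obtain ⟨h1, h2⟩ := h
    rw [← emb_inn (a := a) (b := b) (c := c) (d := d)]
    rcases h1 with e | e | e | e <;> rw [e] at h2 ⊢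
    · have := g1 (lab_emb Q 1 ▸ h2)
      exact ⟨⟨b, (adj_emb Q 1 0).2 (by decide), link_emb Q this.1⟩,
        d, (adj_emb Q 1 4).2 (by decide), link_emb Q this.2⟩
    · have := g0 (lab_emb Q 0 ▸ h2)
      exact ⟨⟨c, (adj_emb Q 0 3).2 (by decide), link_emb Q this.1⟩,
        a, (adj_emb Q 0 1).2 (by decide), link_emb Q this.2⟩
    · have := g3 (lab_emb Q 3 ▸ h2)
      exact ⟨⟨d, (adj_emb Q 3 4).2 (by decide), link_emb Q this.1⟩,
        b, (adj_emb Q 3 0).2 (by decide), link_emb Q this.2⟩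
    · have := g4 (lab_emb Q 4 ▸ h2)
      exact ⟨⟨a, (adj_emb Q 4 1).2 (by decide), link_emb Q this.1⟩,
        c, (adj_emb Q 4 3).2 (by decide), link_emb Q this.2⟩

lemma nb_inr {k : Fin 9} {x : V ⊕ Fin 9} (h : adj' P a b c d (.inr k) x) :
    ∃ j, x = emb a b c d j ∧ KA (inn k) j := by
  rcases x with x | x
  · obtain ⟨i, -, e, l⟩ := bd_emb Q h.1
    exact ⟨i, e, l ▸ h.2⟩
  · exact ⟨inn x, (emb_inn x).symm, h⟩

/-- the handle -/
def hand : Pre (V ⊕ Fin 9) where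
  adj := adj' P a b c d
  nx := nx' P a b c d
  symm := symm'
  irr := by
    rintro (x | x)
    exacts [fun h => P.irr x h.1, ka_irr _]
  h1 := by
    intro x y h
    rcases cases' Q h with ⟨u, v, h1, h2, rfl, rfl⟩ | ⟨i, j, h1, rfl, rfl⟩
    · rw [nx_inl h2]; exact adj_inl (P.h1 h1) (nf_next Q h1 h2)
    · rw [nx_emb Q h1]
      exact (adj_emb Q _ _).2 (t_b i j h1).1
  h2 := by
    intro x y h
    rcases cases' Q h with ⟨u, v, h1, h2, rfl, rfl⟩ | ⟨i, j, h1, rfl, rfl⟩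
    · rw [nx_inl h2, nx_inl (nf_next Q h1 h2), P.h2 h1]
    · rw [nx_emb Q h1, nx_emb Q (t_b i j h1), t_c]
  link := by
    rintro (v | v) u w h1 h2
    · obtain ⟨u1, a1, a2⟩ := (link_new Q h1).1
      obtain ⟨w1, a3, a4⟩ := (link_new Q h2).2
      exact (a2.trans (link_old' Q a1 a3)).trans a4
    · obtain ⟨i, rfl, a1⟩ := nb_inr Q h1
      obtain ⟨j, rfl, a2⟩ := nb_inr Q h2
      have := link_emb Q (t_d _ i j (inn_inn v) a1 a2)
      rwa [emb_inn] at this
  conn := by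
    have s : ∀ {x y}, ReflTransGen (adj' P a b c d) x y → ReflTransGen (adj' P a b c d) y x := by
      intro x y h
      induction h with
      | refl => exact .refl
      | tail _ h ih => exact .head (symm' h) ih
    have h0 : ∀ i : Fin 13, ReflTransGen (adj' P a b c d) (emb a b c d 0) (emb a b c d i) := by
      intro i
      induction i using Fin.induction with
      | zero => exact .refl
      | succ i ih => exact ih.tail ((adj_emb Q _ _).2 (t_h i))
    have h1 : ∀ u v, ReflTransGen (adj' P a b c d) (.inl u) (.inl v) := fun u v => by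
      induction P.conn u v with
      | refl => exact .refl
      | @tail x y _ h ih =>
        by_cases e : x = a ∧ y = c
        · rw [e.1] at ih
          rw [e.2]
          exact ih.trans ((s (h0 1)).trans (h0 3))
        by_cases e' : x = c ∧ y = a
        · rw [e'.1] at ih
          rw [e'.2]
          exact ih.trans ((s (h0 3)).trans (h0 1))
        exact ih.tail ⟨h, e, e'⟩
    have h2 : ∀ x, ReflTransGen (adj' P a b c d) (.inl b) x := by
      rintro (x | x)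
      · exact h1 b x
      · exact emb_inn (a := a) (b := b) (c := c) (d := d) x ▸ h0 (inn x)
    exact fun x y => (s (h2 x)).trans (h2 y)

lemma hand_quad : Quad (hand Q) (emb a b c d 5) (emb a b c d 6) (emb a b c d 9)
    (emb a b c d 8) :=
  ⟨(adj_emb Q 5 6).2 (by decide), nx_emb Q (i := 5) (j := 6) (by decide),
    nx_emb Q (i := 5) (j := 9) (by decide), fun h => absurd ((adj_emb Q 6 8).1 h) (by decide),
    by simp [emb]⟩

lemma hand_bad (h : Bad4 P a b c d) : Bad4 (hand Q) (emb a b c d 5) (emb a b c d 6)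
    (emb a b c d 9) (emb a b c d 8) := by
  rintro ⟨f, f1, f2⟩
  refine h ⟨fun u v => f (.inl u) (.inl v), fun _ _ => f1 _ _, fun u v huv h1 => ?_⟩
  have := f2 (.inl u) (.inl v) (adj_inl huv h1) (by simp [Fq, emb])
  rwa [show (hand Q).nx = nx' P a b c d from rfl, nx_inl h1] at this

lemma hand_clean (h : Clean P) : Clean (hand Q) := by
  have key : ∀ i j k, adj' P a b c d (emb a b c d i) (emb a b c d j) →
      adj' P a b c d (emb a b c d j) (emb a b c d k) →
      adj' P a b c d (emb a b c d k) (emb a b c d i) →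
      nx' P a b c d (emb a b c d i) (emb a b c d j) = emb a b c d k ∨
        nx' P a b c d (emb a b c d j) (emb a b c d i) = emb a b c d k := by
    intro i j k h1 h2 h3
    rw [adj_emb Q] at h1 h2 h3
    rcases t_f i j h1 k h2 h3 with ⟨t, e⟩ | ⟨t, e⟩
    exacts [Or.inl (e ▸ nx_emb Q t), Or.inr (e ▸ nx_emb Q t)]
  have old : ∀ x y z, adj' P a b c d (.inl x) (.inl y) → adj' P a b c d (.inl y) (.inl z) →
      adj' P a b c d (.inl z) (.inl x) → P.nx x y = z →
      nx' P a b c d (.inl x) (.inl y) = .inl z := by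
    intro x y z h1 h2 h3 e
    obtain ⟨-, ⟨b1, b2, b3, b4⟩, -⟩ := Q.basic
    rw [nx_inl, e]
    rintro (⟨p, q⟩ | ⟨p, q⟩ | ⟨p, q⟩ | ⟨p, q⟩ | p | p)
    · exact h3.2.2 ⟨by rw [← e, p, q, Q.hc], p⟩
    · exact h2.2.2 ⟨q, by rw [← e, p, q, b1]⟩
    · exact h3.2.1 ⟨by rw [← e, p, q, b3], p⟩
    · exact h2.2.1 ⟨q, by rw [← e, p, q, b4]⟩
    · exact h1.2.2 p
    · exact h1.2.1 p
  intro x y z h1 h2 h3
  change adj' P a b c d _ _ at h1 h2 h3
  change nx' P a b c d _ _ = _ ∨ nx' P a b c d _ _ = _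
  rcases x with x | x
  · rcases y with y | y
    · rcases z with z | z
      · rcases h x y z h1.1 h2.1 h3.1 with e | e
        exacts [Or.inl (old x y z h1 h2 h3 e),
          Or.inr (old y x z (symm' h1) (symm' h3) (symm' h2) e)]
      · obtain ⟨i, e1, -⟩ := nb_inr Q h3
        obtain ⟨j, e2, -⟩ := nb_inr Q (symm' h2)
        rw [← emb_inn (a := a) (b := b) (c := c) (d := d)] at h2 h3 ⊢
        rw [e1] at h1 h3 ⊢
        rw [e2] at h1 h2 ⊢
        exact key _ _ _ h1 h2 h3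
    · obtain ⟨i, e1, -⟩ := nb_inr Q (symm' h1)
      obtain ⟨j, rfl, -⟩ := nb_inr Q h2
      rw [← emb_inn (a := a) (b := b) (c := c) (d := d)] at h1 h2 ⊢
      rw [e1] at h1 h3 ⊢
      exact key _ _ _ h1 h2 h3
  · obtain ⟨i, rfl, -⟩ := nb_inr Q h1
    obtain ⟨j, rfl, -⟩ := nb_inr Q (symm' h3)
    rw [← emb_inn (a := a) (b := b) (c := c) (d := d)] at h1 h3 ⊢
    exact key _ _ _ h1 h2 h3

lemma hand_darts [Fintype V] : (hand Q).darts = P.darts + 66 := by
  classical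
  obtain ⟨⟨-, b2, -, -⟩, -, n1, n2, n3, n4, n5⟩ := Q.basic
  have n6 := Q.ne
  have e1 : ∀ k : Fin 9, (∑ x : V, if (hand Q).adj (.inl x) (.inr k) then 1 else 0) =
      ∑ i ∈ ({1, 0, 3, 4} : Finset (Fin 13)), if KA i (inn k) then 1 else 0 := by
    intro k
    rw [← Finset.sum_subset (Finset.subset_univ {a, b, c, d}) fun x _ hx =>
      if_neg fun h => hx (by simpa [Bd] using h.1)]
    have l0 : lab a b c (.inl b) = 0 := lab_emb Q 0
    have l1 : lab a b c (.inl a) = 1 := lab_emb Q 1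
    have l3 : lab a b c (.inl c) = 3 := lab_emb Q 3
    have l4 : lab a b c (.inl d) = 4 := lab_emb Q 4
    rw [Finset.sum_insert (by simp [n1, n3.symm, n5.symm]), Finset.sum_insert (by simp [n2, n6]),
      Finset.sum_pair n4, Finset.sum_insert (by decide), Finset.sum_insert (by decide),
      Finset.sum_pair (by decide)]
    simp [hand, adj', Bd, l0, l1, l3, l4]
  have e2 : ∀ k : Fin 9, (∑ x : V, if (hand Q).adj (.inr k) (.inl x) then 1 else 0) =
      ∑ i ∈ ({1, 0, 3, 4} : Finset (Fin 13)), if KA i (inn k) then 1 else 0 := fun k => by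
    rw [← e1 k]
    exact Finset.sum_congr rfl fun x _ => if_congr ⟨(hand Q).symm, (hand Q).symm⟩ rfl rfl
  have e3 : (∑ i : Fin 9, ∑ j : Fin 9, if (hand Q).adj (.inr i) (.inr j) then 1 else 0) = 40 := by
    rw [← show (∑ i : Fin 9, ∑ j : Fin 9, if KA (inn i) (inn j) then 1 else 0) = 40 by
      decide +kernel]
    exact Finset.sum_congr rfl fun x _ => Finset.sum_congr rfl fun y _ => if_congr Iff.rfl rfl rfl
  have e5 : (∑ k : Fin 9, ∑ i ∈ ({1, 0, 3, 4} : Finset (Fin 13)),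
      if KA i (inn k) then 1 else 0) = 14 := by decide +kernel
  have e4 : (∑ x : V, ∑ y : V, if (hand Q).adj (.inl x) (.inl y) then 1 else 0) + 2 = P.darts := by
    have p1 : (∑ x : V, ∑ y : V, if x = a ∧ y = c then 1 else 0) = 1 := by
      simp [ite_and]
    have p2 : (∑ x : V, ∑ y : V, if x = c ∧ y = a then 1 else 0) = 1 := by
      simp [ite_and]
    rw [show 2 = 1 + 1 from rfl]
    nth_rewrite 2 [← p1]
    nth_rewrite 3 [← p2]
    simp only [Pre.darts, ← Finset.sum_add_distrib]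
    refine Finset.sum_congr rfl fun x _ => Finset.sum_congr rfl fun y _ => ?_
    by_cases h1 : x = a ∧ y = c
    · simp [hand, adj', h1, P.symm b2, n3.symm]
    by_cases h2 : x = c ∧ y = a
    · simp [hand, adj', h2, b2, n3]
    simp only [hand, adj', h1, h2, not_false_eq_true, and_true, if_false, add_zero]
  simp only [Pre.darts, Fintype.sum_sum_type, Finset.sum_add_distrib] at e4 ⊢
  rw [Finset.sum_comm (s := Finset.univ) (t := (Finset.univ : Finset (Fin 9)))]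
  simp only [e1, e2, e3, e5]
  omega

end

end

def Good4 (g : ℕ) : Prop :=
  ∃ (V : Type) (_ : Fintype V) (P : Pre V) (a b c d : V), Quad P a b c d ∧
    P.darts + 12 = 6 * Fintype.card V + 12 * g ∧ Clean P ∧ Bad4 P a b c d

lemma Good4.succ {g : ℕ} (h : Good4 g) : Good4 (g + 1) := by
  classical
  obtain ⟨V, _, P, a, b, c, d, Q, h1, h2, h3⟩ := h
  refine ⟨V ⊕ Fin 9, inferInstance, hand Q, _, _, _, _, hand_quad Q, ?_, hand_clean Q h2,
    hand_bad Q h3⟩
  rw [hand_darts, Fintype.card_sum, Fintype.card_fin]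
  omega

lemma Good4.ex {g : ℕ} (h : Good4 g) :
    ∃ (V : Type) (_ : Finite V) (G : SimpleGraph V) (R : RotationSystem G),
      R.HasGenus g ∧ R.IsTriangulation ∧
      (∀ (a b c : V) (hab : G.Adj a b), G.Adj b c → G.Adj c a →
        (R.face ⟨(a, b), hab⟩).snd = c ∨ (R.face ⟨(b, a), hab.symm⟩).snd = c) ∧
      ¬ R.DualColourable := by
  classical
  obtain ⟨V, _, P, a, b, c, d, -, h, hcl, hb⟩ := h
  have : Nonempty V := ⟨a⟩
  have h1 := P.card_faces
  have h2 : P.darts = 2 * Nat.card P.graph.edgeSet := by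
    rw [← Pre.card_darts, Nat.card_eq_fintype_card, SimpleGraph.dart_card_eq_twice_card_edges,
      Nat.card_eq_fintype_card, SimpleGraph.edgeFinset_card]
  refine ⟨V, inferInstance, P.graph, P.rotSys, ⟨⟨fun a b =>
    (SimpleGraph.reachable_iff_reflTransGen _ _).2 (P.conn a b)⟩, by
      rw [Nat.card_eq_fintype_card]; omega⟩, P.isTri, hcl, ?_⟩
  rintro ⟨c, hc⟩
  refine hb ⟨fun a b => if h : s(a, b) ∈ P.graph.edgeSet then c ⟨_, h⟩ else 0,
    fun a b => by simp only [Sym2.eq_swap (a := a)], fun a b hab _ => ?_⟩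
  have e1 : s(a, b) ∈ P.graph.edgeSet := hab
  have e2 : s(b, P.nx a b) ∈ P.graph.edgeSet := P.h1 hab
  simp only [dif_pos e1, dif_pos e2]
  refine hc _ _ ?_ ⟨_, ⟨⟨(a, b), hab⟩, rfl, rfl⟩, ⟨⟨(b, P.nx a b), P.h1 hab⟩, rfl,
    Quotient.sound (Equiv.Perm.SameCycle.refl P.rotSys.face ⟨(a, b), hab⟩).apply_left⟩⟩
  intro h
  rcases Sym2.eq_iff.1 (congrArg Subtype.val h) with ⟨h1, -⟩ | ⟨h1, -⟩
  · exact P.irr _ (h1 ▸ hab)
  · have h5 := P.h4 hab
    rw [← h1] at h5
    exact P.irr _ h5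

end Pool.Agent.MP_06b47d_co.W4
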